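import Pool.Agent.helper20.HP.S0
import Pool.Agent.helper65.HP.B4
import Pool.Agent.helper81.HP.B5

/-!
Module ut:B6 of project MP_5ae64c_pr : the profile bound.
-/

open scoped BigOperators Topology
open Filter MeasureTheory

namespace Pool.Agent.helper20.HP

variable {V : Type} [Fintype V] [DecidableEq V] {K : HW V} {θ : ℝ} {h : ℕ}

section Lists
omit [Fintype V]

theorem B6_mem_split (y : V) : ∀ A : List V, y ∈ A → ∃ u v, A = u ++ y :: v ∧ y ∉ u := by
  intro A
  induction A with
  | nil => intro h; simp at h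
  | cons a A ih =>
    intro h
    by_cases ha : y = a
    · subst ha; exact ⟨[], A, rfl, by simp⟩
    · have h' : y ∈ A := by
        rcases List.mem_cons.mp h with h1 | h1
        · exact absurd h1 ha
        · exact h1
      obtain ⟨u, v, h1, h2⟩ := ih h'
      refine ⟨a :: u, v, by rw [h1]; rfl, ?_⟩
      intro h3
      rcases List.mem_cons.mp h3 with h4 | h4
      · exact ha h4
      · exact h2 h4

theorem B6_dw (y : V) (u v : List V) (h : y ∉ u) :
    (u ++ y :: v).dropWhile (fun z => decide (z ≠ y)) = y :: v := by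
  induction u with
  | nil => simp
  | cons a u ih =>
    have ha : a ≠ y := by
      intro h'; subst h'; simp at h
    have hu : y ∉ u := by
      intro h'; exact h (List.mem_cons_of_mem _ h')
    rw [List.cons_append, List.dropWhile_cons_of_pos (by simpa using ha)]
    exact ih hu

/-- membership in the lowest part of a list without repetitions, in terms of the part below -/
theorem B6_rtake_dw {S : List V} {y : V} {k : ℕ} (hS : S.Nodup) (hy : y ∈ S.rtake k) :
    (S.dropWhile (fun z => decide (z ≠ y))).length ≤ k := by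
  unfold List.rtake at hy
  have hyS : y ∈ S := List.mem_of_mem_drop hy
  obtain ⟨u, v, h1, h2⟩ := B6_mem_split y S hyS
  rw [h1, B6_dw y u v h2]
  by_contra hc
  push Not at hc
  rw [h1] at hy hS
  have hlen : (u ++ y :: v).length - k ≥ u.length + 1 := by
    rw [List.length_append]; omega
  obtain ⟨m, hm⟩ := Nat.exists_eq_add_of_le hlen
  rw [hm, ← List.drop_drop, List.drop_append] at hy
  have h3 : List.drop (u.length + 1) u = [] := List.drop_eq_nil_of_le (by omega)
  have h4 : u.length + 1 - u.length = 1 := by omega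
  rw [h3, h4, List.nil_append, List.drop_one, List.tail_cons] at hy
  have h5 : y ∈ v := List.mem_of_mem_drop hy
  have h6 := (List.nodup_append.mp hS).2.1
  exact (List.nodup_cons.mp h6).1 h5

theorem B6_dw_rtake {S : List V} {y : V} {k : ℕ} (hy : y ∈ S)
    (h : (S.dropWhile (fun z => decide (z ≠ y))).length ≤ k) : y ∈ S.rtake k := by
  obtain ⟨u, v, h1, h2⟩ := B6_mem_split y S hy
  rw [h1, B6_dw y u v h2] at h
  unfold List.rtake
  rw [h1]
  have hlen : (u ++ y :: v).length - k ≤ u.length := by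
    rw [List.length_append]; omega
  rw [List.drop_append_of_le_length hlen]
  exact List.mem_append_right _ List.mem_cons_self

end Lists

/-- visits of the recent past -/
theorem B6_recent (u : ℕ) : ∀ (k : ℕ) (z0 : V),
    W K k z0 (fun lb => W K u (lst z0 lb) (fun l => ind (lst (lst z0 lb) l ∈ lb)))
      ≤ ∑ a ∈ Finset.range k, cc K (a + u) := by
  intro k
  induction k with
  | zero =>
    intro z0
    rw [W_zero]
    simp only [List.not_mem_nil, Finset.range_zero, Finset.sum_empty]
    rw [ind_false (by simp : ¬ False), W_const]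
  | succ k ih =>
    intro z0
    rw [W_succ]
    have h1 : ∀ y, W K k y (fun l => (fun lb => W K u (lst z0 lb)
        (fun l => ind (lst (lst z0 lb) l ∈ lb))) (y :: l)) ≤
        ∑ a ∈ Finset.range (k + 1), cc K (a + u) := by
      intro y
      have h2 : ∀ l : List V, lst z0 (y :: l) = lst y l := by
        intro l
        have := lst_append z0 [y] l
        rw [List.singleton_append] at this
        rw [this]; rfl
      have h3 : W K k y (fun l => (fun lb => W K u (lst z0 lb)
          (fun l => ind (lst (lst z0 lb) l ∈ lb))) (y :: l)) ≤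
          W K k y (fun l => W K u (lst y l) (fun l' => ind (lst (lst y l) l' = y)) +
            W K u (lst y l) (fun l' => ind (lst (lst y l) l' ∈ l))) := by
        apply W_mono
        intro l hl
        simp only [h2]
        rw [← W_add]
        apply W_mono
        intro l' hl'
        rw [ind_congr List.mem_cons]
        exact ind_or_le _ _
      have h4 : W K k y (fun l => W K u (lst y l) (fun l' => ind (lst (lst y l) l' = y)))
          = cc K (k + u) := by
        rw [← cc_eq K (k + u) y, ← W_ind_lst K (k + u) y y, W_split]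
        apply W_congr
        intro l hl
        apply W_congr
        intro l' hl'
        rw [lst_append]
      rw [W_add, h4] at h3
      rw [Finset.sum_range_succ]
      linarith [ih y]
    calc ∑ y, K.p z0 y * W K k y (fun l => (fun lb => W K u (lst z0 lb)
            (fun l => ind (lst (lst z0 lb) l ∈ lb))) (y :: l))
        ≤ ∑ y, K.p z0 y * ∑ a ∈ Finset.range (k + 1), cc K (a + u) := by
          apply Finset.sum_le_sum
          intro y _
          exact mul_le_mul_of_nonneg_left (h1 y) (K.nonneg z0 y)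
      _ = ∑ a ∈ Finset.range (k + 1), cc K (a + u) := by
          rw [← Finset.sum_mul, K.sum_one, one_mul]

theorem B6_CZ_pos (hP : Par K θ h) : 0 < CZ θ := by
  have := hP.one_le
  unfold CZ
  positivity

theorem short_words (hP : Par K θ h) (Γ : List V) (T r : ℕ)
    (hT : 4 * T ≤ Nat.sqrt (Fintype.card V)) : PhiN K Γ (T + 1) r ≤ ((T : ℝ) + 1) * CZ θ := by
  have hCZ := B6_CZ_pos hP
  have hstep : PhiN K Γ (T + 1) r = ∑ i : Fin Γ.length, ∑ t ∈ Finset.range (T + 1),
      W K t (Γ.get i) (fun l => ind (∀ y ∈ l, y ∉ Γ) * lev r (Γ.get i) (Γ.drop (i + 1)) l) := by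
    unfold PhiN km kmT
    rw [Finset.sum_comm]
  rw [hstep]
  set S : Finset (Fin Γ.length) := Finset.univ.filter
    (fun i : Fin Γ.length => (Γ.drop (i + 1)).length ≤ r ∧ r ≤ (Γ.drop (i + 1)).length + T) with hS
  have hcard : S.card ≤ T + 1 := by
    have h1 : S.card ≤ (Finset.Icc (r - T) r).card := by
      apply Finset.card_le_card_of_injOn (fun i : Fin Γ.length => (Γ.drop ((i : ℕ) + 1)).length)
      · intro i hi
        have hi' : i ∈ S := hi
        rw [hS, Finset.mem_filter] at hi'
        simp only [Finset.coe_Icc, Set.mem_Icc]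
        omega
      · intro i _ j _ hij
        simp only [List.length_drop] at hij
        apply Fin.ext
        have := i.2
        have := j.2
        omega
    rw [Nat.card_Icc] at h1
    omega
  have hterm : ∀ i : Fin Γ.length, ∑ t ∈ Finset.range (T + 1),
      W K t (Γ.get i) (fun l => ind (∀ y ∈ l, y ∉ Γ) * lev r (Γ.get i) (Γ.drop (i + 1)) l)
      ≤ if i ∈ S then CZ θ else 0 := by
    intro i
    have hlev : ∀ l : List V, (∀ y ∈ l, y ∉ Γ) →
        (lev r (Γ.get i) (Γ.drop (i + 1)) l
          = ind (lel (Γ.get i) l + (Γ.drop (i + 1)).length + 1 = r + 1)) := by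
      intro l hl
      unfold lev
      rw [run_avoid_length]
      intro y hy h'
      exact hl y hy (List.mem_of_mem_drop h')
    by_cases hi : i ∈ S
    · rw [if_pos hi]
      rw [hS, Finset.mem_filter] at hi
      refine le_trans ?_ (Zq_le hP T (r - (Γ.drop (i + 1)).length) (Γ.get i) (by omega))
      unfold Zq
      apply Finset.sum_le_sum
      intro t _
      apply W_mono
      intro l _
      by_cases hl : ∀ y ∈ l, y ∉ Γ
      · rw [ind_true hl, one_mul, hlev l hl]
        apply ind_mono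
        intro h1
        omega
      · rw [ind_false hl, zero_mul]
        exact ind_nonneg _
    · rw [if_neg hi]
      have hzero : ∀ t ∈ Finset.range (T + 1), W K t (Γ.get i)
          (fun l => ind (∀ y ∈ l, y ∉ Γ) * lev r (Γ.get i) (Γ.drop (i + 1)) l) ≤ 0 := by
        intro t ht
        rw [Finset.mem_range] at ht
        have : W K t (Γ.get i)
          (fun l => ind (∀ y ∈ l, y ∉ Γ) * lev r (Γ.get i) (Γ.drop (i + 1)) l)
            ≤ W K t (Γ.get i) (fun _ => 0) := by
          apply W_mono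
          intro l hlt
          by_cases hl : ∀ y ∈ l, y ∉ Γ
          · rw [ind_true hl, one_mul, hlev l hl, ind_false]
            intro h1
            apply hi
            rw [hS, Finset.mem_filter]
            have h2 := lel_le (Γ.get i) l
            exact ⟨Finset.mem_univ _, by omega, by omega⟩
          · rw [ind_false hl, zero_mul]
        rw [W_const] at this
        exact this
      exact Finset.sum_nonpos hzero
  calc ∑ i : Fin Γ.length, ∑ t ∈ Finset.range (T + 1),
        W K t (Γ.get i) (fun l => ind (∀ y ∈ l, y ∉ Γ) * lev r (Γ.get i) (Γ.drop (i + 1)) l)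
      ≤ ∑ i : Fin Γ.length, (if i ∈ S then CZ θ else 0) := Finset.sum_le_sum (fun i _ => hterm i)
    _ = (S.card : ℝ) * CZ θ := by
        rw [← Finset.sum_filter]
        simp [Finset.sum_const, nsmul_eq_mul]
    _ ≤ ((T : ℝ) + 1) * CZ θ := by
        apply mul_le_mul_of_nonneg_right _ hCZ.le
        exact_mod_cast hcard

/-- the pointwise estimate -/
theorem B6_point (hP : Par K θ h) (Γ : List V) (T r : ℕ)
    (hT : 4 * T ≤ Nat.sqrt (Fintype.card V)) (D : ℕ) (hD : D ≤ T + 1) (x : V) (ρ l0 : List V)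
    (hnd : (x :: ρ).Nodup) :
    ∑ v ∈ Finset.range D, W K (2 * h + v) (lst x l0)
        (fun l' => ind (∀ y ∈ l', y ∉ Γ) * lev r x ρ (l0 ++ l'))
      ≤ CZ θ * (θ + ((T : ℝ) + 1) * (((r : ℝ) + 1) * (3 / (2 * (Fintype.card V : ℝ))))) := by
  have hCZ := B6_CZ_pos hP
  have hn : 0 < Fintype.card V := hP.card_pos
  have hnR : (0 : ℝ) < (Fintype.card V : ℝ) := by exact_mod_cast hn
  have h16 := hP.h_le
  have hh1 := hP.h_pos
  set z0 := lst x l0 with hz0
  -- the state after `l0 ++ lb`
  have hstate : ∀ lb : List V, ∃ τ, run (x :: ρ) (l0 ++ lb) = lst z0 lb :: τ := by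
    intro lb
    obtain ⟨τ, hτ⟩ := run_head x ρ (l0 ++ lb)
    exact ⟨τ, by rw [hτ, lst_append, hz0]⟩
  have h1 : ∑ v ∈ Finset.range D, W K (2 * h + v) z0
        (fun l' => ind (∀ y ∈ l', y ∉ Γ) * lev r x ρ (l0 ++ l'))
      ≤ W K (2 * h) z0 (fun lb => ∑ v ∈ Finset.range (T + 1), W K v (lst z0 lb)
          (fun l2 => ind (∀ y ∈ l2, y ∉ Γ) *
            ind ((run (run (x :: ρ) (l0 ++ lb)) l2).length = r + 1))) := by
    rw [W_sum]
    refine le_trans ?_ (Finset.sum_le_sum_of_subset_of_nonneg
      (Finset.range_subset_range.mpr hD) ?_)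
    · apply Finset.sum_le_sum
      intro v _
      rw [W_split]
      apply W_mono
      intro lb _
      apply W_mono
      intro l2 _
      rw [← run_append, List.append_assoc]
      unfold lev
      apply mul_le_mul_of_nonneg_right _ (ind_nonneg _)
      apply ind_mono
      intro h2 y hy
      exact h2 y (List.mem_append_right _ hy)
    · intro v _ _
      apply W_nonneg
      intro lb _
      apply W_nonneg
      intro l2 _
      exact mul_nonneg (ind_nonneg _) (ind_nonneg _)
  have h2 : W K (2 * h) z0 (fun lb => ∑ v ∈ Finset.range (T + 1), W K v (lst z0 lb)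
          (fun l2 => ind (∀ y ∈ l2, y ∉ Γ) *
            ind ((run (run (x :: ρ) (l0 ++ lb)) l2).length = r + 1)))
      ≤ W K (2 * h) z0 (fun lb => CZ θ * ∑ u ∈ Finset.range (T + 1), W K u (lst z0 lb)
          (fun l => ind (lst (lst z0 lb) l ∈ (run (x :: ρ) (l0 ++ lb)).rtake (r + 1)))) := by
    apply W_mono
    intro lb _
    obtain ⟨τ, hτ⟩ := hstate lb
    have hndτ : (lst z0 lb :: τ).Nodup := by
      rw [← hτ]; exact run_nodup hnd _
    have h3 := visits hP Γ (lst z0 lb) τ hndτ r T hT
    rw [hτ]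
    refine le_trans h3 ?_
    apply mul_le_mul_of_nonneg_left _ hCZ.le
    apply Finset.sum_le_sum
    intro u _
    apply W_mono
    intro l _
    have h4 := ind_le_one (∀ y ∈ l, y ∉ Γ)
    have h5 := ind_nonneg (lst (lst z0 lb) l ∈ (lst z0 lb :: τ).rtake (r + 1))
    calc _ ≤ 1 * ind (lst (lst z0 lb) l ∈ (lst z0 lb :: τ).rtake (r + 1)) :=
          mul_le_mul_of_nonneg_right h4 h5
      _ = _ := one_mul _
  set A : List V := (run (x :: ρ) l0).rtake (r + 1) with hA
  have hAlen : A.length ≤ r + 1 := by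
    rw [hA]; unfold List.rtake
    rw [List.length_drop]; omega
  have h3 : ∀ u ∈ Finset.range (T + 1), W K (2 * h) z0 (fun lb => W K u (lst z0 lb)
          (fun l => ind (lst (lst z0 lb) l ∈ (run (x :: ρ) (l0 ++ lb)).rtake (r + 1))))
      ≤ (∑ a ∈ Finset.range (2 * h), cc K (a + u))
        + ((r : ℝ) + 1) * (3 / (2 * (Fintype.card V : ℝ))) := by
    intro u _
    have h4 : W K (2 * h) z0 (fun lb => W K u (lst z0 lb)
          (fun l => ind (lst (lst z0 lb) l ∈ (run (x :: ρ) (l0 ++ lb)).rtake (r + 1))))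
        ≤ W K (2 * h) z0 (fun lb => W K u (lst z0 lb) (fun l => ind (lst (lst z0 lb) l ∈ lb))
            + W K u (lst z0 lb) (fun l => ind (lst z0 (lb ++ l) ∈ A))) := by
      apply W_mono
      intro lb _
      rw [← W_add]
      apply W_mono
      intro l _
      refine le_trans (ind_mono ?_) (ind_or_le _ _)
      intro h5
      by_cases h6 : lst (lst z0 lb) l ∈ lb
      · exact Or.inl h6
      · right
        rw [lst_append]
        have hnd' : (run (x :: ρ) (l0 ++ lb)).Nodup := run_nodup hnd _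
        have h7 : lst (lst z0 lb) l ∈ run (x :: ρ) (l0 ++ lb) := by
          unfold List.rtake at h5
          exact List.mem_of_mem_drop h5
        obtain ⟨h8, h9⟩ := persist (x :: ρ) l0 lb hnd _ h7 h6
        have h10 := B6_rtake_dw hnd' h5
        rw [h9] at h10
        exact B6_dw_rtake h8 h10
    rw [W_add] at h4
    have h5 : W K (2 * h) z0 (fun lb => W K u (lst z0 lb) (fun l => ind (lst z0 (lb ++ l) ∈ A)))
        ≤ ((r : ℝ) + 1) * (3 / (2 * (Fintype.card V : ℝ))) := by
      have h6 := W_ind_mem_le K (2 * h + u) z0 A (3 / (2 * (Fintype.card V : ℝ)))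
        (fun y => hP.mix (2 * h + u) (by omega) z0 y)
      rw [W_split] at h6
      refine le_trans h6 ?_
      apply mul_le_mul_of_nonneg_right _ (by positivity)
      have : ((A.length : ℕ) : ℝ) ≤ ((r + 1 : ℕ) : ℝ) := by exact_mod_cast hAlen
      rw [Nat.cast_add, Nat.cast_one] at this
      exact this
    have h6 := B6_recent (K := K) u (2 * h) z0
    linarith
  have h4 : ∑ u ∈ Finset.range (T + 1), ((∑ a ∈ Finset.range (2 * h), cc K (a + u))
        + ((r : ℝ) + 1) * (3 / (2 * (Fintype.card V : ℝ))))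
      ≤ θ + ((T : ℝ) + 1) * (((r : ℝ) + 1) * (3 / (2 * (Fintype.card V : ℝ)))) := by
    rw [Finset.sum_add_distrib, Finset.sum_const, Finset.card_range, nsmul_eq_mul, Nat.cast_add,
      Nat.cast_one, Finset.sum_comm]
    have := cc_double_le hP (M := 2 * h) (N := T + 1) (by omega)
    linarith
  refine le_trans h1 (le_trans h2 ?_)
  rw [W_mul_left, W_sum]
  apply mul_le_mul_of_nonneg_left _ hCZ.le
  exact le_trans (Finset.sum_le_sum h3) h4

theorem phi_bound (hP : Par K θ h) (Γ : List V) (hΓ : Γ.Nodup) (N r : ℕ) :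
    PhiN K Γ N r ≤ CP θ * ((Nat.sqrt (Fintype.card V) : ℝ) + r) := by
  have hCZ := B6_CZ_pos hP
  have hn : 0 < Fintype.card V := hP.card_pos
  have hnR : (0 : ℝ) < (Fintype.card V : ℝ) := by exact_mod_cast hn
  have h16 := hP.h_le
  have hh1 := hP.h_pos
  have hθ := hP.one_le
  set L := Nat.sqrt (Fintype.card V) with hL
  set T := L / 4 with hTdef
  have hT4 : 4 * T ≤ L := by omega
  set D := T - 2 * h with hDdef
  have hD1 : 1 ≤ D := by omega
  have hD8 : L ≤ 8 * D + 3 := by omega
  have hTpos : 1 ≤ T := by omega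
  set B : ℝ := CZ θ * (θ + ((T : ℝ) + 1) * (((r : ℝ) + 1) * (3 / (2 * (Fintype.card V : ℝ)))))
    with hB
  have hBpos : 0 ≤ B := by
    rw [hB]; positivity
  have hlevnn : ∀ (x : V) (ρ l : List V), 0 ≤ lev r x ρ l := by
    intro x ρ l; unfold lev; exact ind_nonneg _
  -- one value of `v`
  have hv : ∀ v ∈ Finset.range D, km K Γ N (lev r) ≤ (T : ℝ) * CZ θ +
      km K Γ N (fun x ρ l0 => W K (2 * h + v) (lst x l0)
        (fun l' => ind (∀ y ∈ l', y ∉ Γ) * lev r x ρ (l0 ++ l'))) := by
    intro v hvD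
    rw [Finset.mem_range] at hvD
    have h1 : km K Γ N (lev r) ≤ km K Γ (N + (2 * h + v)) (lev r) :=
      km_mono_N K Γ (by omega) hlevnn
    rw [km_split] at h1
    have h2 : km K Γ (2 * h + v) (lev r) ≤ (T : ℝ) * CZ θ := by
      have h3 : km K Γ (2 * h + v) (lev r) ≤ km K Γ ((T - 1) + 1) (lev r) :=
        km_mono_N K Γ (by omega) hlevnn
      have h4 := short_words hP Γ (T - 1) r (by omega)
      unfold PhiN at h4
      have h5 : ((T - 1 : ℕ) : ℝ) + 1 = (T : ℝ) := by
        rw [Nat.cast_sub hTpos]; push_cast; ring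
      rw [h5] at h4
      exact le_trans h3 h4
    linarith
  have hsum : (D : ℝ) * km K Γ N (lev r) ≤ (D : ℝ) * ((T : ℝ) * CZ θ) +
      B * (Fintype.card V : ℝ) := by
    have h1 := Finset.sum_le_sum hv
    rw [Finset.sum_const, Finset.card_range, nsmul_eq_mul, Finset.sum_add_distrib,
      Finset.sum_const, Finset.card_range, nsmul_eq_mul, ← km_sum] at h1
    have h2 : km K Γ N (fun x ρ l0 => ∑ v ∈ Finset.range D, W K (2 * h + v) (lst x l0)
        (fun l' => ind (∀ y ∈ l', y ∉ Γ) * lev r x ρ (l0 ++ l')))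
        ≤ km K Γ N (fun _ _ _ => B * 1) := by
      apply km_mono
      intro i l0 _ _
      rw [mul_one]
      have hnd : (Γ.get i :: Γ.drop (i + 1)).Nodup := by
        have h3 : Γ.get i :: Γ.drop (i + 1) = Γ.drop i := by
          rw [List.get_eq_getElem, List.cons_getElem_drop_succ]
        rw [h3]
        exact hΓ.sublist (List.drop_sublist _ _)
      exact B6_point hP Γ T r hT4 D (by omega) (Γ.get i) (Γ.drop (i + 1)) l0 hnd
    rw [km_mul_left] at h2
    have h3 := kac K Γ hΓ N
    have h4 : B * km K Γ N (fun _ _ _ => 1) ≤ B * (Fintype.card V : ℝ) :=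
      mul_le_mul_of_nonneg_left h3 hBpos
    linarith
  -- arithmetic
  have hLn : (Fintype.card V : ℝ) ≤ (L : ℝ) * (L + 2) := by
    have h1 := Nat.sqrt_le_add (Fintype.card V)
    rw [← hL] at h1
    have h2 : (Fintype.card V : ℝ) ≤ ((L * L + L + L : ℕ) : ℝ) := by exact_mod_cast h1
    push_cast at h2
    nlinarith
  have hL16 : (16 : ℝ) ≤ (L : ℝ) := by
    have : 16 ≤ L := by omega
    exact_mod_cast this
  have hDR : (L : ℝ) ≤ 8 * (D : ℝ) + 3 := by exact_mod_cast hD8
  have hTR : 4 * (T : ℝ) ≤ (L : ℝ) := by exact_mod_cast hT4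
  have hT0 : (0 : ℝ) ≤ (T : ℝ) := Nat.cast_nonneg _
  have hr0 : (0 : ℝ) ≤ (r : ℝ) := Nat.cast_nonneg _
  have hD0 : (1 : ℝ) ≤ (D : ℝ) := by exact_mod_cast hD1
  have hBn : B * (Fintype.card V : ℝ) = CZ θ * (θ * (Fintype.card V : ℝ) +
      3 / 2 * (((T : ℝ) + 1) * ((r : ℝ) + 1))) := by
    rw [hB]; field_simp
  rw [hBn] at hsum
  unfold PhiN
  -- it suffices to multiply by `D`
  have hfin : (D : ℝ) * ((T : ℝ) * CZ θ) + CZ θ * (θ * (Fintype.card V : ℝ) +
      3 / 2 * (((T : ℝ) + 1) * ((r : ℝ) + 1))) ≤ (D : ℝ) * (CP θ * ((L : ℝ) + r)) := by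
    have hCP : CP θ = CZ θ * (13 * θ) := by unfold CP; ring
    rw [hCP]
    have h1 : (D : ℝ) * (T : ℝ) + (θ * (Fintype.card V : ℝ) +
      3 / 2 * (((T : ℝ) + 1) * ((r : ℝ) + 1))) ≤ (D : ℝ) * (13 * θ * ((L : ℝ) + r)) := by
      -- reduce to θ = 1
      have h2 : (D : ℝ) * (T : ℝ) + ((Fintype.card V : ℝ) +
        3 / 2 * (((T : ℝ) + 1) * ((r : ℝ) + 1))) ≤ (D : ℝ) * (13 * ((L : ℝ) + r)) := by
        have h3 : (T : ℝ) ≤ (L : ℝ) / 4 := by linarith
        have h4 : ((L : ℝ) - 3) / 8 ≤ (D : ℝ) := by linarith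
        have h5 : (Fintype.card V : ℝ) + 3 / 2 * (((L : ℝ) / 4 + 1) * ((r : ℝ) + 1)) ≤
            ((L : ℝ) - 3) / 8 * (13 * ((L : ℝ) + r) - (L : ℝ) / 4) := by
          nlinarith [mul_nonneg (sub_nonneg.mpr hL16) hr0,
            mul_nonneg (sub_nonneg.mpr hL16) (sub_nonneg.mpr hL16)]
        have h6 : 3 / 2 * (((T : ℝ) + 1) * ((r : ℝ) + 1)) ≤
            3 / 2 * (((L : ℝ) / 4 + 1) * ((r : ℝ) + 1)) := by
          nlinarith
        have h7 : 0 ≤ 13 * ((L : ℝ) + r) - (L : ℝ) / 4 := by linarith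
        have h8 : ((L : ℝ) - 3) / 8 * (13 * ((L : ℝ) + r) - (L : ℝ) / 4) ≤
            (D : ℝ) * (13 * ((L : ℝ) + r) - (L : ℝ) / 4) :=
          mul_le_mul_of_nonneg_right h4 h7
        have h9 : (D : ℝ) * (T : ℝ) ≤ (D : ℝ) * ((L : ℝ) / 4) :=
          mul_le_mul_of_nonneg_left h3 (by linarith)
        nlinarith
      have h3 : 0 ≤ (D : ℝ) * (T : ℝ) + 3 / 2 * (((T : ℝ) + 1) * ((r : ℝ) + 1)) := by positivity
      have h4 : θ * ((D : ℝ) * (T : ℝ) + ((Fintype.card V : ℝ) +
        3 / 2 * (((T : ℝ) + 1) * ((r : ℝ) + 1)))) ≤ θ * ((D : ℝ) * (13 * ((L : ℝ) + r))) :=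
        mul_le_mul_of_nonneg_left h2 (by linarith)
      have h5 : 1 * ((D : ℝ) * (T : ℝ) + 3 / 2 * (((T : ℝ) + 1) * ((r : ℝ) + 1))) ≤
        θ * ((D : ℝ) * (T : ℝ) + 3 / 2 * (((T : ℝ) + 1) * ((r : ℝ) + 1))) :=
        mul_le_mul_of_nonneg_right hθ h3
      linarith
    have h2 := mul_le_mul_of_nonneg_left h1 hCZ.le
    linarith
  have h1 : (D : ℝ) * km K Γ N (lev r) ≤ (D : ℝ) * (CP θ * ((L : ℝ) + r)) := le_trans hsum hfin
  exact le_of_mul_le_mul_left h1 (by linarith)

end Pool.Agent.helper20.HP
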