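import Pool.Agent.helper13.HP.A3

/-!
Module ut:A4 of project MP_5ae64c_pr : long hits.
-/

open scoped BigOperators Topology
open Filter MeasureTheory

namespace Pool.Agent.helper20.HP

variable {V : Type} [Fintype V] [DecidableEq V] (K : HW V)

section States
omit [Fintype V]

omit [DecidableEq V] in
/-- first element of a list with a property -/
theorem A4_first {P : V → Prop} : ∀ {l : List V}, (∃ z ∈ l, P z) →
    ∃ a z c, l = a ++ z :: c ∧ P z ∧ ∀ y ∈ a, ¬ P y := by
  intro l
  induction l with
  | nil => rintro ⟨z, hz, _⟩; simp at hz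
  | cons u l ih =>
    intro h
    by_cases hu : P u
    · exact ⟨[], u, l, rfl, hu, by simp⟩
    · have h' : ∃ z ∈ l, P z := by
        obtain ⟨z, hz, hPz⟩ := h
        rcases List.mem_cons.mp hz with h1 | h1
        · subst h1; exact absurd hPz hu
        · exact ⟨z, h1, hPz⟩
      obtain ⟨a, z, c, h1, h2, h3⟩ := ih h'
      refine ⟨u :: a, z, c, by rw [h1]; rfl, h2, ?_⟩
      intro y hy
      rcases List.mem_cons.mp hy with h4 | h4
      · subst h4; exact hu
      · exact h3 y h4

omit [DecidableEq V] in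
/-- members of the recent past which are not in the last part -/
theorem A4_rtake {b : ℕ} {A B : List V} {z : V} (h : z ∈ (A ++ B).rtake b) (hz : z ∉ B) :
    z ∈ A.rtake b ∧ B.length < b := by
  unfold List.rtake at h ⊢
  rw [List.drop_append, List.mem_append] at h
  rcases h with h | h
  · constructor
    · have h1 : A.length - b ≤ (A ++ B).length - b := by
        rw [List.length_append]; omega
      obtain ⟨k, hk⟩ := Nat.exists_eq_add_of_le h1
      rw [hk, ← List.drop_drop] at h
      exact List.mem_of_mem_drop h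
    · by_contra hb
      have h1 : A.length ≤ (A ++ B).length - b := by
        rw [List.length_append]; omega
      rw [List.drop_eq_nil_of_le h1] at h
      simp at h
  · exact absurd (List.mem_of_mem_drop h) hz

/-- after the last long hit the walk does not touch the path below the tip -/
theorem LH_last (b : ℕ) (x : V) (ρ l1 l2 : List V) (y : V) (hnd : (x :: ρ).Nodup)
    (h1 : LH b x ρ l1 y) (h2 : NoLH b x ρ (l1 ++ [y]) l2) :
    ∃ σ, run (x :: ρ) (l1 ++ [y]) = y :: σ ∧ (∀ z ∈ l2, z ∉ σ) ∧
      run (x :: ρ) (l1 ++ y :: l2) = run [y] l2 ++ σ := by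
  obtain ⟨hy, hyr⟩ := h1
  obtain ⟨u, σ, hS, hyu⟩ := A3_split y _ hy
  have hrun : run (x :: ρ) (l1 ++ [y]) = y :: σ := by
    rw [A3_run_concat, hS, A3_stp_mem y u σ hyu]
  have hnd1 : (run (x :: ρ) l1).Nodup := run_nodup hnd l1
  have hnd2 : (y :: σ).Nodup := by
    rw [← hrun]; exact run_nodup hnd _
  have hyσ : y ∉ σ := (List.nodup_cons.mp hnd2).1
  -- the part below `y` has not been visited recently
  have hσ : ∀ z ∈ σ, z ∉ (x :: l1).rtake b := by
    obtain ⟨τ, σ', h3, -, h4, h5⟩ := top_split b x ρ l1 hnd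
    have hyτ : y ∉ τ := fun h => hyr (h5 y h)
    have hyσ' : y ∈ σ' := by
      rw [h3, List.mem_append] at hy
      exact hy.resolve_left hyτ
    obtain ⟨u', v', h6, h7⟩ := A3_split y σ' hyσ'
    have h8 : run (x :: ρ) l1 = (τ ++ u') ++ y :: v' := by rw [h3, h6, List.append_assoc]
    have h9 : y ∉ τ ++ u' := by
      rw [List.mem_append]; rintro (h | h)
      · exact hyτ h
      · exact h7 h
    have h10 : y :: σ = y :: v' := by
      rw [← A3_stp_mem y u σ hyu, ← hS, h8, A3_stp_mem y (τ ++ u') v' h9]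
    have h11 : σ = v' := (List.cons.inj h10).2
    intro z hz
    apply h4
    rw [h6, h11.symm]
    exact List.mem_append_right _ (List.mem_cons_of_mem _ hz)
  have hav : ∀ z ∈ l2, z ∉ σ := by
    intro z0 hz0 hz0σ
    obtain ⟨a, z, c, h3, h4, h5⟩ := A4_first (P := fun z => z ∈ σ) ⟨z0, hz0, hz0σ⟩
    have h6 := h2 a z c h3
    apply h6
    constructor
    · rw [run_append, hrun, run_avoid y σ a h5]
      exact List.mem_append_right _ h4
    · intro h7
      have h8 : x :: (l1 ++ [y] ++ a) = (x :: l1) ++ (y :: a) := by simp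
      rw [h8] at h7
      have h9 : z ∉ y :: a := by
        intro h10
        rcases List.mem_cons.mp h10 with h11 | h11
        · subst h11; exact hyσ h4
        · exact h5 z h11 h4
      exact hσ z h4 (A4_rtake h7 h9).1
  refine ⟨σ, hrun, hav, ?_⟩
  have h3 : l1 ++ y :: l2 = (l1 ++ [y]) ++ l2 := by simp
  rw [h3, run_append, hrun, run_avoid y σ l2 hav]

/-- without long hits the level drops by at most `b` in `b` steps -/
theorem NoLH_drop (b : ℕ) (x : V) (ρ l1 l2 : List V) (hnd : (x :: ρ).Nodup) (_hl : l2.length ≤ b)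
    (h : NoLH b x ρ l1 l2) :
    (run (x :: ρ) l1).length ≤ (run (x :: ρ) (l1 ++ l2)).length + b := by
  obtain ⟨τ, σ, h3, h3', h4, h5⟩ := top_split b x ρ l1 hnd
  have hav : ∀ z ∈ l2, z ∉ σ := by
    intro z0 hz0 hz0σ
    obtain ⟨a, z, c, h6, h7, h8⟩ := A4_first (P := fun z => z ∈ σ) ⟨z0, hz0, hz0σ⟩
    apply h a z c h6
    constructor
    · rw [run_append, h3, A3_run_append_avoid τ σ a h8]
      exact List.mem_append_right _ h7
    · intro h9
      have h10 : x :: (l1 ++ a) = (x :: l1) ++ a := by simp
      rw [h10] at h9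
      exact h4 z h7 (A4_rtake h9 (fun h11 => h8 z h11 h7)).1
  rw [run_append, h3, A3_run_append_avoid τ σ l2 hav, List.length_append, List.length_append]
  omega

theorem LHin_last (b w : ℕ) (x : V) (ρ l : List V) (h : LHin b w x ρ l) :
    ∃ l1 y l2, l = l1 ++ y :: l2 ∧ l2.length < w ∧ LH b x ρ l1 y ∧ NoLH b x ρ (l1 ++ [y]) l2 := by
  obtain ⟨l1, y, l2, h1, h2, h3⟩ := h
  have key : ∀ n : ℕ, ∀ l1 y l2, l2.length = n → l = l1 ++ y :: l2 → l2.length < w →
      LH b x ρ l1 y →
      ∃ l1 y l2, l = l1 ++ y :: l2 ∧ l2.length < w ∧ LH b x ρ l1 y ∧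
        NoLH b x ρ (l1 ++ [y]) l2 := by
    intro n
    induction n using Nat.strong_induction_on with
    | _ n ih =>
      intro l1 y l2 hn h1 h2 h3
      by_cases hc : NoLH b x ρ (l1 ++ [y]) l2
      · exact ⟨l1, y, l2, h1, h2, h3, hc⟩
      · unfold NoLH at hc
        push Not at hc
        obtain ⟨a, y', c, h4, h5⟩ := hc
        have hlen : c.length < n := by
          rw [← hn, h4, List.length_append, List.length_cons]; omega
        refine ih c.length hlen (l1 ++ [y] ++ a) y' c rfl ?_ (by omega) h5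
        rw [h1, h4]; simp
  exact key _ l1 y l2 rfl h1 h2 h3

theorem LHin_mono {b w w' : ℕ} (hw : w ≤ w') {x : V} {ρ l : List V} (h : LHin b w x ρ l) :
    LHin b w' x ρ l := by
  obtain ⟨l1, y, l2, h1, h2, h3⟩ := h
  exact ⟨l1, y, l2, h1, by omega, h3⟩

theorem not_LHin_iff (b w : ℕ) (x : V) (ρ l1 l2 : List V) (hl : l2.length = w) :
    ¬ LHin b w x ρ (l1 ++ l2) ↔ NoLH b x ρ l1 l2 := by
  constructor
  · intro h a y c h1 h2
    apply h
    refine ⟨l1 ++ a, y, c, ?_, ?_, h2⟩
    · rw [h1]; simp
    · rw [← hl, h1, List.length_append, List.length_cons]; omega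
  · rintro h ⟨l1', y, l2', h1, h2, h3⟩
    rcases List.append_eq_append_iff.mp h1 with ⟨a, h4, h5⟩ | ⟨c, h4, h5⟩
    · rw [h4] at h3
      exact h a y l2' h5 h3
    · have hlen := congrArg List.length h5
      rw [List.length_append, List.length_cons] at hlen
      have hc : c.length = 0 := by omega
      have hc' : c = [] := List.length_eq_zero_iff.mp hc
      subst hc'
      rw [List.append_nil] at h4
      subst h4
      rw [List.nil_append] at h5
      exact h [] y l2' h5.symm (by rw [List.append_nil]; exact h3)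

theorem NoLH_append (b : ℕ) (x : V) (ρ l1 l2 l3 : List V) :
    NoLH b x ρ l1 (l2 ++ l3) ↔ NoLH b x ρ l1 l2 ∧ NoLH b x ρ (l1 ++ l2) l3 := by
  constructor
  · intro h
    constructor
    · intro a y c h1
      exact h a y (c ++ l3) (by rw [h1]; simp)
    · intro a y c h1
      have := h (l2 ++ a) y c (by rw [h1]; simp)
      rwa [← List.append_assoc] at this
  · rintro ⟨h, h'⟩ a y c h1
    rcases List.append_eq_append_iff.mp h1 with ⟨a', h4, h5⟩ | ⟨c', h4, h5⟩
    · rw [h4, ← List.append_assoc]
      exact h' a' y c h5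
    · cases c' with
      | nil =>
        rw [List.append_nil] at h4
        rw [List.nil_append] at h5
        have := h' [] y c h5.symm
        rw [List.append_nil, h4] at this
        exact this
      | cons u c'' =>
        rw [List.cons_append] at h5
        obtain ⟨h6, -⟩ := List.cons.inj h5
        subst h6
        exact h a y c'' h4

/-- first hit of the current path by a future `l2` which avoids the recent past for `b` steps is long -/
theorem hit_is_LH (b : ℕ) (x : V) (ρ l1 l2 : List V)
    (hcut : ∀ y ∈ l2.take b, y ∉ (x :: l1).rtake b)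
    (hno : NoLH b x ρ l1 l2) : ∀ y ∈ l2, y ∉ run (x :: ρ) l1 := by
  intro z0 hz0 hz0S
  obtain ⟨a, z, c, h6, h7, h8⟩ :=
    A4_first (P := fun z => z ∈ run (x :: ρ) l1) ⟨z0, hz0, hz0S⟩
  apply hno a z c h6
  constructor
  · rw [run_append]
    exact (suffix_run (List.suffix_refl _) h8).subset h7
  · intro h9
    have h10 : x :: (l1 ++ a) = (x :: l1) ++ a := by simp
    rw [h10] at h9
    obtain ⟨h11, h12⟩ := A4_rtake h9 (fun h13 => h8 z h13 h7)
    refine hcut z ?_ h11
    rw [h6, List.take_append, List.mem_append]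
    right
    obtain ⟨k, hk⟩ := Nat.exists_eq_add_of_lt h12
    have hk' : b - a.length = k + 1 := by omega
    rw [hk', List.take_succ_cons]
    exact List.mem_cons_self

end States

end Pool.Agent.helper20.HP
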